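import Pool.Agent.W455.EM.Stm
import Pool.Agent.FracEM.PM.Abs1

set_option autoImplicit false

namespace Pool.Agent.W61.EM

open Finset Pool.Agent.FracEM.PMT Pool.Agent.W455.EM

theorem hitc {n : ℕ} (j : ℕ) (Y D : Finset (Fin n)) :
    ((Y.powersetCard (j + 1)).filter (fun X => ¬ Disjoint X D)).card ≤ D.card * n ^ j := by
  have h1 : (Y.powersetCard (j + 1)).filter (fun X => ¬ Disjoint X D) ⊆
      D.biUnion (fun d => ((univ : Finset (Fin n)).powersetCard j).image (fun X => insert d X)) := by
    intro X hX
    rw [mem_filter, mem_powersetCard] at hX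
    obtain ⟨⟨_, hXc⟩, hXD⟩ := hX
    rw [Finset.not_disjoint_iff] at hXD
    obtain ⟨d, hdX, hdD⟩ := hXD
    rw [mem_biUnion]
    refine ⟨d, hdD, ?_⟩
    rw [mem_image]
    refine ⟨X.erase d, ?_, Finset.insert_erase hdX⟩
    rw [mem_powersetCard]
    refine ⟨Finset.subset_univ _, ?_⟩
    rw [Finset.card_erase_of_mem hdX, hXc]
    omega
  refine (Finset.card_le_card h1).trans (Finset.card_biUnion_le_card_mul _ _ _ fun d _ => ?_)
  refine Finset.card_image_le.trans ?_
  rw [Finset.card_powersetCard, Finset.card_univ, Fintype.card_fin]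
  exact Nat.choose_le_pow n j

theorem main (hG : S_GRE) (hT : S_TYP) : S_EXF := by
  intro k hk
  obtain ⟨ε, hε, n1, hT⟩ := hT k hk
  refine ⟨ε, hε, fun α hα hαε => ?_⟩
  have hk0 : (0 : ℝ) < k := by
    have : 0 < k := by omega
    exact_mod_cast this
  refine ⟨min (min (α / (16 * k)) (1 / (4 * k))) ε, ?_, max n1 1, ?_⟩
  · refine lt_min (lt_min (by positivity) (by positivity)) hε
  intro n hn H A D γ hγ hγ0 hS hD hcard
  have hγ1 : 16 * (k : ℝ) * γ ≤ α := by
    have h1 : γ ≤ α / (16 * k) := hγ0.trans ((min_le_left _ _).trans (min_le_left _ _))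
    rw [le_div_iff₀ (by positivity)] at h1
    linarith
  have hγ2 : 4 * (k : ℝ) * γ ≤ 1 := by
    have h1 : γ ≤ 1 / (4 * k) := hγ0.trans ((min_le_left _ _).trans (min_le_right _ _))
    rw [le_div_iff₀ (by positivity)] at h1
    linarith
  have hγ3 : γ ≤ ε := hγ0.trans (min_le_right _ _)
  have hn1 : n1 ≤ n := (le_max_left _ _).trans hn
  have hn0 : 1 ≤ n := (le_max_right _ _).trans hn
  have hnR : (0 : ℝ) < n := by exact_mod_cast hn0
  have hk1 : k - 1 = (k - 2) + 1 := by omega
  have hpow : (n : ℝ) ^ (k - 1) = (n : ℝ) ^ (k - 2) * n := by rw [hk1, pow_succ]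
  have hp2 : (0 : ℝ) < (n : ℝ) ^ (k - 2) := pow_pos hnR _
  obtain ⟨S, hSdef⟩ : ∃ S, S = (A \ D).filter (fun a => γ * (n : ℝ) ^ (k - 1) <
    ((((univ \ A).powersetCard (k - 1)).filter (fun X => insert a X ∉ H)).card : ℝ)) := ⟨_, rfl⟩
  have hSsub : S ⊆ A \ D := by rw [hSdef]; exact filter_subset _ _
  have hScard : (S.card : ℝ) ≤ γ * n := by
    refine le_trans ?_ hS.typ
    rw [hSdef]
    exact_mod_cast Finset.card_le_card (Finset.filter_subset_filter _ Finset.sdiff_subset)
  obtain ⟨B', hB'⟩ : ∃ B', B' = (univ \ A) \ D := ⟨_, rfl⟩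
  rw [← hB'] at hcard
  have hB'A : Disjoint B' A := by
    rw [hB']
    exact Disjoint.mono_left Finset.sdiff_subset Finset.sdiff_disjoint
  have hB'D : Disjoint B' D := by
    rw [hB']
    exact Finset.sdiff_disjoint
  obtain ⟨f, hf1, hf2⟩ := hG n k (by omega) S
    (fun a => (B'.powersetCard (k - 1)).filter (fun X => insert a X ∈ H)) (by
      intro v _ T hT
      rw [mem_filter, mem_powersetCard] at hT
      exact hT.1.2) (by
      intro a ha
      have haA : a ∈ A := (mem_sdiff.1 (hSsub ha)).1
      have h1 := hS.high a haA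
      have h2 : (((univ \ A).powersetCard (k - 1)).filter (fun X => insert a X ∈ H)) ⊆
          ((B'.powersetCard (k - 1)).filter (fun X => insert a X ∈ H)) ∪
          (((univ \ A).powersetCard (k - 2 + 1)).filter (fun X => ¬ Disjoint X D)) := by
        intro X hX
        rw [mem_filter, mem_powersetCard] at hX
        rw [mem_union]
        by_cases hXD : Disjoint X D
        · left
          rw [mem_filter, mem_powersetCard]
          refine ⟨⟨?_, hX.1.2⟩, hX.2⟩
          intro x hx
          rw [hB', mem_sdiff]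
          exact ⟨hX.1.1 hx, Finset.disjoint_left.1 hXD hx⟩
        · right
          rw [mem_filter, mem_powersetCard]
          exact ⟨⟨hX.1.1, by rw [hX.1.2]; omega⟩, hXD⟩
      have h3 := (Finset.card_le_card h2).trans (Finset.card_union_le _ _)
      have h4 := hitc (k - 2) (univ \ A) D
      have h5 : ((((univ \ A).powersetCard (k - 1)).filter (fun X => insert a X ∈ H)).card : ℝ) ≤
          (((B'.powersetCard (k - 1)).filter (fun X => insert a X ∈ H)).card : ℝ) +
          (D.card : ℝ) * (n : ℝ) ^ (k - 2) := by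
        have := h3.trans (Nat.add_le_add_left h4 _)
        exact_mod_cast this
      have h6 : ((k * S.card * n ^ (k - 2) : ℕ) : ℝ) <
          (((B'.powersetCard (k - 1)).filter (fun X => insert a X ∈ H)).card : ℝ) := by
        push_cast
        rw [hpow] at h1
        have h7 : (D.card : ℝ) * (n : ℝ) ^ (k - 2) ≤ k * γ * n * (n : ℝ) ^ (k - 2) :=
          mul_le_mul_of_nonneg_right hD hp2.le
        have h8 : (k : ℝ) * S.card * (n : ℝ) ^ (k - 2) ≤ k * (γ * n) * (n : ℝ) ^ (k - 2) :=
          mul_le_mul_of_nonneg_right (mul_le_mul_of_nonneg_left hScard hk0.le) hp2.le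
        have h9 : (0 : ℝ) < (n : ℝ) ^ (k - 2) * n := mul_pos hp2 hnR
        have h10 : (16 * (k : ℝ) * γ) * ((n : ℝ) ^ (k - 2) * n) ≤ α * ((n : ℝ) ^ (k - 2) * n) :=
          mul_le_mul_of_nonneg_right hγ1 h9.le
        have h11 : 0 < α * ((n : ℝ) ^ (k - 2) * n) := mul_pos hα h9
        nlinarith
      exact_mod_cast h6)
  have hf3 : ∀ a ∈ S, f a ⊆ B' ∧ (f a).card = k - 1 ∧ insert a (f a) ∈ H := by
    intro a ha
    have h := hf1 a ha
    rw [mem_filter, mem_powersetCard] at h
    exact ⟨h.1.1, h.1.2, h.2⟩
  obtain ⟨U, hU⟩ : ∃ U, U = S.biUnion f := ⟨_, rfl⟩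
  have hUB : U ⊆ B' := by
    rw [hU, Finset.biUnion_subset]
    exact fun a ha => (hf3 a ha).1
  have hUcard : U.card = S.card * (k - 1) := by
    rw [hU, Finset.card_biUnion (fun a ha b hb hab => hf2 a ha b hb hab),
      Finset.sum_congr rfl (fun a ha => (hf3 a ha).2.1), Finset.sum_const, smul_eq_mul]
  obtain ⟨A2, hA2⟩ : ∃ A2, A2 = (A \ D) \ S := ⟨_, rfl⟩
  obtain ⟨B2, hB2⟩ : ∃ B2, B2 = B' \ U := ⟨_, rfl⟩
  have hA2c : A2.card = (A \ D).card - S.card := by
    rw [hA2, Finset.card_sdiff_of_subset hSsub]
  have hSle : S.card ≤ (A \ D).card := Finset.card_le_card hSsub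
  have hB2c : B2.card = (k - 1) * A2.card := by
    rw [hB2, Finset.card_sdiff_of_subset hUB, hUcard, hA2c, Nat.mul_comm S.card, hcard,
      Nat.mul_sub (k - 1)]
  have hA2A : A2 ⊆ A := by
    rw [hA2]
    exact Finset.sdiff_subset.trans Finset.sdiff_subset
  have hB2B : B2 ⊆ B' := by
    rw [hB2]
    exact Finset.sdiff_subset
  have hdis : Disjoint A2 B2 := (Disjoint.mono hB2B hA2A hB'A).symm
  have hcov : n ≤ (A \ D).card + B'.card + D.card := by
    have h1 : (univ : Finset (Fin n)) ⊆ ((A \ D) ∪ B') ∪ D := by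
      intro x _
      simp only [mem_union, hB', mem_sdiff, mem_univ, true_and]
      tauto
    have h2 := Finset.card_le_card h1
    rw [Finset.card_univ, Fintype.card_fin] at h2
    have h3 := Finset.card_union_le ((A \ D) ∪ B') D
    have h4 := Finset.card_union_le (A \ D) B'
    omega
  have hn2 : (n : ℝ) ≤ 2 * k * A2.card := by
    have h1 : (n : ℝ) ≤ (A \ D).card + ((k : ℝ) - 1) * (A \ D).card + D.card := by
      rw [hcard] at hcov
      have h2 : (n : ℝ) ≤ (((A \ D).card + (k - 1) * (A \ D).card + D.card : ℕ) : ℝ) := by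
        exact_mod_cast hcov
      have h3 : ((k - 1 : ℕ) : ℝ) = (k : ℝ) - 1 := by
        rw [Nat.cast_sub (by omega)]
        simp
      push_cast at h2
      rw [h3] at h2
      exact h2
    have h2 : (A2.card : ℝ) = (A \ D).card - S.card := by
      rw [hA2c, Nat.cast_sub hSle]
    rw [h2]
    have h3 : (k : ℝ) * S.card ≤ k * (γ * n) := mul_le_mul_of_nonneg_left hScard hk0.le
    have h4 : (4 * (k : ℝ) * γ) * n ≤ 1 * n := mul_le_mul_of_nonneg_right hγ2 hnR.le
    nlinarith
  have hPM2 : PMon H (A2 ∪ B2) := by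
    refine hT n hn1 H A2 B2 hdis hB2c hn2 ?_
    intro v hv
    rw [mem_union] at hv
    rcases hv with hv | hv
    · have hvA : v ∈ A := hA2A hv
      have hvS : v ∉ S := by
        rw [hA2, mem_sdiff] at hv
        exact hv.2
      have hvAD : v ∈ A \ D := by
        rw [hA2, mem_sdiff] at hv
        exact hv.1
      have h1 : ((((univ \ A).powersetCard (k - 1)).filter (fun X => insert v X ∉ H)).card : ℝ) ≤
          γ * (n : ℝ) ^ (k - 1) := by
        by_contra hcon
        push Not at hcon
        apply hvS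
        rw [hSdef, mem_filter]
        exact ⟨hvAD, hcon⟩
      have h2 : (((A2 ∪ B2).powersetCard k).filter
          (fun e => v ∈ e ∧ (e ∩ A2).card = 1 ∧ e ∉ H)).card ≤
          (((univ \ A).powersetCard (k - 1)).filter (fun X => insert v X ∉ H)).card := by
        refine Finset.card_le_card_of_injOn (fun e => e.erase v) ?_ ?_
        · intro e he
          rw [mem_coe, mem_filter, mem_powersetCard] at he
          obtain ⟨⟨heU, hek⟩, hve, heA, heH⟩ := he
          rw [mem_coe, mem_filter, mem_powersetCard]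
          refine ⟨⟨?_, ?_⟩, ?_⟩
          · intro x hx
            rw [mem_erase] at hx
            rw [mem_sdiff]
            refine ⟨mem_univ _, fun hxA => ?_⟩
            have hxU := heU hx.2
            rw [mem_union] at hxU
            rcases hxU with hxU | hxU
            · rw [Finset.card_eq_one] at heA
              obtain ⟨y, hy⟩ := heA
              have h3 : x ∈ e ∩ A2 := mem_inter.2 ⟨hx.2, hxU⟩
              have h4 : v ∈ e ∩ A2 := mem_inter.2 ⟨hve, hv⟩
              rw [hy, mem_singleton] at h3 h4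
              exact hx.1 (h3.trans h4.symm)
            · exact Finset.disjoint_left.1 hB'A (hB2B hxU) hxA
          · rw [Finset.card_erase_of_mem hve, hek]
          · rw [Finset.insert_erase hve]
            exact heH
        · intro e he e' he' h
          rw [mem_coe, mem_filter] at he he'
          have h3 : insert v (e.erase v) = insert v (e'.erase v) := by
            have h4 : e.erase v = e'.erase v := h
            rw [h4]
          rwa [Finset.insert_erase he.2.1, Finset.insert_erase he'.2.1] at h3
      have h3 : (((((A2 ∪ B2).powersetCard k).filter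
          (fun e => v ∈ e ∧ (e ∩ A2).card = 1 ∧ e ∉ H)).card : ℕ) : ℝ) ≤
          (((((univ \ A).powersetCard (k - 1)).filter (fun X => insert v X ∉ H)).card : ℕ) : ℝ) := by
        exact_mod_cast h2
      refine h3.trans (h1.trans ?_)
      exact mul_le_mul_of_nonneg_right hγ3 (pow_nonneg hnR.le _)
    · have hvA : v ∉ A := Finset.disjoint_left.1 hB'A (hB2B hv)
      have h1 := hS.mis v hvA
      have h2 : (((A2 ∪ B2).powersetCard k).filter
          (fun e => v ∈ e ∧ (e ∩ A2).card = 1 ∧ e ∉ H)).card ≤
          (((univ.erase v).powersetCard (k - 1)).filter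
            (fun X => ¬ Disjoint X A ∧ insert v X ∉ H)).card := by
        refine Finset.card_le_card_of_injOn (fun e => e.erase v) ?_ ?_
        · intro e he
          rw [mem_coe, mem_filter, mem_powersetCard] at he
          obtain ⟨⟨heU, hek⟩, hve, heA, heH⟩ := he
          rw [mem_coe, mem_filter, mem_powersetCard]
          refine ⟨⟨Finset.erase_subset_erase _ (Finset.subset_univ _), ?_⟩, ?_, ?_⟩
          · rw [Finset.card_erase_of_mem hve, hek]
          · rw [Finset.card_eq_one] at heA
            obtain ⟨y, hy⟩ := heA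
            have h3 : y ∈ e ∩ A2 := by rw [hy]; exact mem_singleton_self _
            rw [mem_inter] at h3
            rw [Finset.not_disjoint_iff]
            refine ⟨y, ?_, hA2A h3.2⟩
            rw [mem_erase]
            refine ⟨?_, h3.1⟩
            rintro rfl
            exact hvA (hA2A h3.2)
          · rw [Finset.insert_erase hve]
            exact heH
        · intro e he e' he' h
          rw [mem_coe, mem_filter] at he he'
          have h3 : insert v (e.erase v) = insert v (e'.erase v) := by
            have h4 : e.erase v = e'.erase v := h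
            rw [h4]
          rwa [Finset.insert_erase he.2.1, Finset.insert_erase he'.2.1] at h3
      have h3 : (((((A2 ∪ B2).powersetCard k).filter
          (fun e => v ∈ e ∧ (e ∩ A2).card = 1 ∧ e ∉ H)).card : ℕ) : ℝ) ≤
          (((((univ.erase v).powersetCard (k - 1)).filter
            (fun X => ¬ Disjoint X A ∧ insert v X ∉ H)).card : ℕ) : ℝ) := by
        exact_mod_cast h2
      refine h3.trans (h1.trans ?_)
      exact mul_le_mul_of_nonneg_right hαε (pow_nonneg hnR.le _)
  have hSA : S ⊆ A := hSsub.trans Finset.sdiff_subset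
  have hPM1 : PMon H (S ∪ U) := by
    refine ⟨S.image (fun a => insert a (f a)), ?_, ?_, ?_⟩
    · intro e he
      rw [mem_image] at he
      obtain ⟨a, ha, rfl⟩ := he
      exact (hf3 a ha).2.2
    · intro e he e' he' hne
      rw [mem_image] at he he'
      obtain ⟨a, ha, rfl⟩ := he
      obtain ⟨b, hb, rfl⟩ := he'
      have hab : a ≠ b := by
        rintro rfl
        exact hne rfl
      rw [Finset.disjoint_left]
      intro x hx hx'
      rw [mem_insert] at hx hx'
      rcases hx with rfl | hx <;> rcases hx' with hx' | hx'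
      · exact hab hx'
      · exact Finset.disjoint_left.1 hB'A ((hf3 b hb).1 hx') (hSA ha)
      · rw [hx'] at hx
        exact Finset.disjoint_left.1 hB'A ((hf3 a ha).1 hx) (hSA hb)
      · exact Finset.disjoint_left.1 (hf2 a ha b hb hab) hx hx'
    · ext x
      simp only [mem_biUnion, mem_image, id, mem_union, hU]
      constructor
      · rintro ⟨e, ⟨a, ha, rfl⟩, hx⟩
        rw [mem_insert] at hx
        rcases hx with rfl | hx
        · exact Or.inl ha
        · exact Or.inr ⟨a, ha, hx⟩
      · rintro (hx | ⟨a, ha, hx⟩)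
        · exact ⟨_, ⟨x, hx, rfl⟩, mem_insert_self _ _⟩
        · exact ⟨_, ⟨a, ha, rfl⟩, mem_insert_of_mem hx⟩
  have hfin := PMon_union H (S ∪ U) (A2 ∪ B2) (by
    rw [Finset.disjoint_left]
    intro x hx hx'
    rw [mem_union] at hx hx'
    rcases hx with hx | hx <;> rcases hx' with hx' | hx'
    · rw [hA2, mem_sdiff] at hx'
      exact hx'.2 hx
    · exact Finset.disjoint_left.1 hB'A (hB2B hx') (hSA hx)
    · exact Finset.disjoint_left.1 hB'A (hUB hx) (hA2A hx')
    · rw [hB2, mem_sdiff] at hx'
      exact hx'.2 hx) hPM1 hPM2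
  have heq : (S ∪ U) ∪ (A2 ∪ B2) = univ \ D := by
    ext x
    constructor
    · intro hx
      rw [mem_union, mem_union, mem_union] at hx
      rw [mem_sdiff]
      refine ⟨mem_univ _, ?_⟩
      rcases hx with (hx | hx) | (hx | hx)
      · exact (mem_sdiff.1 (hSsub hx)).2
      · exact Finset.disjoint_left.1 hB'D (hUB hx)
      · rw [hA2, mem_sdiff, mem_sdiff] at hx
        exact hx.1.2
      · exact Finset.disjoint_left.1 hB'D (hB2B hx)
    · intro hx
      rw [mem_sdiff] at hx
      rw [mem_union, mem_union, mem_union, hA2, hB2, hB']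
      simp only [mem_sdiff, mem_univ, true_and]
      tauto
  rw [heq] at hfin
  exact hfin

end Pool.Agent.W61.EM
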